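import Mathlib

/-!
The mapping class group of a closed orientable surface as a group of outer automorphisms.
-/

set_option autoImplicit false

namespace Pool.Agent.Lib.MP_c86c76_al

/-- The free group on `a_i = of (i, false)` and `b_i = of (i, true)`. -/
abbrev F (g : ℕ) : Type := FreeGroup (Fin g × Bool)

/-- The commutator `[a_i, b_i]`, and `1` if `i` is out of range. -/
def handle (g i : ℕ) : F g :=
  if h : i < g then FreeGroup.of (⟨i, h⟩, false) * FreeGroup.of (⟨i, h⟩, true) *
    (FreeGroup.of (⟨i, h⟩, false))⁻¹ * (FreeGroup.of (⟨i, h⟩, true))⁻¹ else 1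

/-- The product of the first `h` commutators. -/
def bdry (g h : ℕ) : F g := ((List.range h).map (handle g)).prod

/-- The fundamental group of the closed orientable surface of genus `g`. -/
def Pi1 (g : ℕ) : Type := F g ⧸ Subgroup.normalClosure {bdry g g}

instance pi1Group (g : ℕ) : Group (Pi1 g) := QuotientGroup.Quotient.group _

/-- The projection to the surface group. -/
def proj (g : ℕ) : F g →* Pi1 g := QuotientGroup.mk' _

/-- Inner automorphisms. -/
def Inn (G : Type) [Group G] : Subgroup (MulAut G) := (MulAut.conj (G := G)).range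

theorem inn_normal (G : Type) [Group G] : (Inn G).Normal :=
  ⟨by
    rintro _ ⟨x, rfl⟩ φ
    exact ⟨φ x, by ext y; simp⟩⟩

/-- The outer automorphism group. -/
def Out (G : Type) [Group G] : Type := MulAut G ⧸ Inn G

instance outGroup (G : Type) [Group G] : Group (Out G) :=
  @QuotientGroup.Quotient.group _ _ _ (inn_normal G)

/-- The outer class of an automorphism. -/
def cls (G : Type) [Group G] : MulAut G →* Out G := @QuotientGroup.mk' _ _ _ (inn_normal G)

/-- `φ` fixes the surface relator and `c` is the outer class of the automorphism it induces. -/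
def Induces {g : ℕ} (φ : MulAut (F g)) (c : Out (Pi1 g)) : Prop :=
  φ (bdry g g) = bdry g g ∧ ∃ ψ : MulAut (Pi1 g),
    (∀ x : F g, ψ (proj g x) = proj g (φ x)) ∧ c = cls (Pi1 g) ψ

/-- Outer classes induced by automorphisms of the free group that fix the surface relator. -/
def modSub (g : ℕ) : Subgroup (Out (Pi1 g)) where
  carrier := {c | ∃ φ, Induces φ c}
  one_mem' := ⟨1, rfl, 1, fun _ => rfl, rfl⟩
  mul_mem' := by
    rintro _ _ ⟨φ, a, ψ, b, rfl⟩ ⟨φ', a', ψ', b', rfl⟩
    exact ⟨φ * φ', by simp [a, a'], ψ * ψ', fun x => by simp [b, b'], rfl⟩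
  inv_mem' := by
    rintro _ ⟨φ, a, ψ, b, rfl⟩
    refine ⟨φ⁻¹, φ.symm_apply_eq.2 a.symm, ψ⁻¹, fun x => ψ.symm_apply_eq.2 ?_, rfl⟩
    rw [b]
    simp

/-- The mapping class group. -/
def Mod (g : ℕ) : Type := modSub g

instance modGroup (g : ℕ) : Group (Mod g) := Subgroup.toGroup _

/-- The standard Dehn twists: about the curve `a_0`, and about the curve that cuts off the first
`h` handles. -/
def StdTwist {g : ℕ} (φ : MulAut (F g)) : Prop :=
  (∀ x : Fin g × Bool, φ (FreeGroup.of x) =
    if x.1.val = 0 ∧ x.2 = true then FreeGroup.of x * FreeGroup.of (x.1, false)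
    else FreeGroup.of x) ∨
  ∃ h, 2 ≤ h ∧ h ≤ g ∧ ∀ x : Fin g × Bool, φ (FreeGroup.of x) =
    if x.1.val < h then (bdry g h)⁻¹ * FreeGroup.of x * bdry g h else FreeGroup.of x

/-- Dehn twists: conjugates of the classes of the standard twists. -/
def IsTwist {g : ℕ} (T : Mod g) : Prop :=
  ∃ (φ : MulAut (F g)) (c : Mod g), StdTwist φ ∧ Induces φ c.1 ∧ IsConj c T

end Pool.Agent.Lib.MP_c86c76_al
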