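import Mathlib

/-!
Growth of cocycles along central elements of the commutator subgroup.
-/

set_option autoImplicit false

open Filter Topology

namespace Pool.Agent.Lib.MP_c86c76_al

variable {G H : Type*} [Group G] [NormedAddCommGroup H] [InnerProductSpace ℝ H] [CompleteSpace H]

theorem cocycle_growth (π : G →* (H ≃ₗᵢ[ℝ] H)) (b : G → H)
    (hb : ∀ x y, b (x * y) = b x + π x (b y)) {z : G} (hz : ∀ g, g * z = z * g)
    (hc : z ∈ commutator G) : Tendsto (fun n : ℕ => ‖b (z ^ n)‖ ^ 2 / n) atTop (𝓝 0) := by
  have b1 : b 1 = 0 := by simpa using hb 1 1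
  have pm : ∀ g h v, π g (π h v) = π (g * h) v := fun g h v => by rw [map_mul]; rfl
  let u : H →L[ℝ] H := (π z).toLinearIsometry.toContinuousLinearMap
  let A : ℕ → H → H := fun n v => (n : ℝ)⁻¹ • ∑ k ∈ Finset.range n, π (z ^ k) v
  have hA : ∀ n v, birkhoffAverage ℝ u id n v = A n v := fun n v => by
    simp only [birkhoffAverage, birkhoffSum, A, id]
    congr 1
    refine Finset.sum_congr rfl fun k hk => ?_
    clear hk
    induction k with
    | zero => simp
    | succ k ih => rw [Function.iterate_succ_apply', ih, pow_succ', map_mul]; rfl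
  have hz' : ∀ g (k : ℕ), g * z ^ k = z ^ k * g := fun g k => (Commute.pow_right (hz g) k).eq
  let φ : ℕ → G → ℝ := fun n g => inner ℝ (A n (b g)) (b (z ^ n))
  have D : ∀ g h, Tendsto (fun n => φ n (g * h) - φ n g - φ n h) atTop (𝓝 0) := fun g h => by
    obtain ⟨p, hp, lim⟩ : ∃ p, π z p = p ∧ Tendsto (fun n => A n (b h)) atTop (𝓝 p) :=
      ⟨_, ((u.eqLocus (1 : H →L[ℝ] H)).orthogonalProjectionOnto (b h)).2, by
        simpa only [hA] using u.tendsto_birkhoffAverage_orthogonalProjection
          (π z).toLinearIsometry.norm_toContinuousLinearMap_le (b h)⟩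
    have hp' : ∀ k : ℕ, π (z ^ k) p = p := fun k => by
      induction k with
      | zero => simp
      | succ k ih => rw [pow_succ, ← pm, hp, ih]
    have e : ∀ n, φ n (g * h) - φ n g - φ n h =
        inner ℝ (A n (b h) - p) (π (z ^ n) (b g⁻¹) - b g⁻¹) := fun n => by
      have e1 : A n (b (g * h)) = A n (b g) + π g (A n (b h)) := by
        simp only [A, hb, map_add, Finset.sum_add_distrib, smul_add, map_smul, map_sum, pm, hz']
      have e2 : b (z ^ n) = π g (b (z ^ n) + (π (z ^ n) (b g⁻¹) - b g⁻¹)) := by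
        have := hb g⁻¹ (z ^ n)
        rw [hz', hb] at this
        rw [add_sub, this, add_sub_cancel_left, pm]
        simp
      have e3 : inner ℝ p (π (z ^ n) (b g⁻¹)) = inner ℝ p (b g⁻¹) := by
        conv_lhs => rw [← hp' n, LinearIsometryEquiv.inner_map_map]
      have e4 : inner ℝ (π g (A n (b h))) (b (z ^ n)) =
          inner ℝ (A n (b h)) (b (z ^ n) + (π (z ^ n) (b g⁻¹) - b g⁻¹)) := by
        conv_lhs => rw [e2, LinearIsometryEquiv.inner_map_map]
      simp only [φ, e1, inner_add_left, e4, inner_add_right, inner_sub_left, inner_sub_right p, e3]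
      ring
    simp only [e]
    refine squeeze_zero_norm (a := fun n => ‖A n (b h) - p‖ * (2 * ‖b g⁻¹‖)) (fun n => ?_) ?_
    · refine (norm_inner_le_norm _ _).trans (mul_le_mul_of_nonneg_left ?_ (norm_nonneg _))
      refine (norm_sub_le _ _).trans ?_
      rw [LinearIsometryEquiv.norm_map, two_mul]
    · simpa using (tendsto_iff_norm_sub_tendsto_zero.1 lim).mul_const (2 * ‖b g⁻¹‖)
  have φ1 : ∀ n, φ n 1 = 0 := fun n => by simp [φ, A, b1]
  let N : Subgroup G :=
    { carrier := {g | Tendsto (fun n => φ n g) atTop (𝓝 0)}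
      one_mem' := by simp [φ1]
      mul_mem' := fun {g h} a c => by
        have := ((D g h).add a).add c
        simp only [add_zero] at this
        exact this.congr fun n => by ring
      inv_mem' := fun {g} a => by simpa [φ1] using ((D g g⁻¹).add a).neg }
  have hN : commutator G ≤ N := Subgroup.commutator_le.2 fun g _ h _ => by
    have := ((((D (g * h * g⁻¹) h⁻¹).add (D (g * h) g⁻¹)).add (D g h)).sub (D g g⁻¹)).sub (D h h⁻¹)
    simp only [mul_inv_cancel, φ1, add_zero, sub_zero] at this
    refine this.congr fun n => ?_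
    rw [commutatorElement_def]
    ring
  refine (hN hc).congr fun n => ?_
  have : ∑ k ∈ Finset.range n, π (z ^ k) (b z) = b (z ^ n) := by
    induction n with
    | zero => simp [b1]
    | succ n ih => rw [Finset.sum_range_succ, ih, pow_succ, hb]
  simp only [φ, A, this, inner_smul_left, real_inner_self_eq_norm_sq]
  simp [div_eq_inv_mul]

theorem isom_growth (ρ : G →* (H ≃ᵢ H)) {z : G} (hz : ∀ g, g * z = z * g) (hc : z ∈ commutator G)
    (v : H) : Tendsto (fun n : ℕ => dist (ρ (z ^ n) v) v ^ 2 / n) atTop (𝓝 0) := by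
  let π : G →* (H ≃ₗᵢ[ℝ] H) :=
    { toFun := fun g => (ρ g).toRealLinearIsometryEquiv
      map_one' := by ext; simp
      map_mul' := fun g h => by
        ext x
        have := (ρ g).toRealLinearIsometryEquiv.map_sub (ρ h x) (ρ h 0)
        simp only [IsometryEquiv.toRealLinearIsometryEquiv_apply] at this
        simp [this] }
  simp only [dist_eq_norm]
  refine cocycle_growth π (fun g => ρ g v - v) (fun g h => ?_) hz hc
  have := (ρ g).toRealLinearIsometryEquiv.map_sub (ρ h v) v
  simp only [IsometryEquiv.toRealLinearIsometryEquiv_apply] at this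
  simp [π, this]

end Pool.Agent.Lib.MP_c86c76_al
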