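import Pool.Agent.Lib.MP_c86c76_al.Twist

/-!
The two lantern relations and the conclusion.
-/

set_option autoImplicit false

open FreeGroup hiding map_mul map_one map_inv
open Filter Topology

namespace Pool.Agent.Lib.MP_c86c76_al

/-- Table of twists. -/
def tN : Tab 3 where
  img s c p := match s.val, c, p.1.val, p.2 with
    | 0, true, 0, true => [(some (0, true), true), (some (0, false), true)]
    | 0, false, 0, true => [(some (0, true), true), (some (0, false), false)]
    | 1, true, 1, false => [(some (1, false), true), (some (1, true), false)]
    | 1, false, 1, false => [(some (1, false), true), (some (1, true), true)]
    | 2, true, 1, true => [(some (1, true), true), (some (1, false), true)]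
    | 2, false, 1, true => [(some (1, true), true), (some (1, false), false)]
    | 3, true, 0, true => [(some (1, false), false), (some (0, true), true), (some (0, false), true), (some (0, true), false), (some (0, true), true)]
    | 3, true, 1, false => [(some (1, false), false), (some (0, true), true), (some (0, false), true), (some (0, true), false), (some (1, false), true), (some (0, true), true), (some (0, false), false), (some (0, true), false), (some (1, false), true)]
    | 3, true, 1, true => [(some (1, true), true), (some (0, true), true), (some (0, false), false), (some (0, true), false), (some (1, false), true)]
    | 3, false, 0, true => [(some (0, true), true), (some (0, false), false), (some (0, true), false), (some (1, false), true), (some (0, true), true)]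
    | 3, false, 1, false => [(some (0, true), true), (some (0, false), false), (some (0, true), false), (some (1, false), true), (some (1, false), true), (some (1, false), false), (some (0, true), true), (some (0, false), true), (some (0, true), false)]
    | 3, false, 1, true => [(some (1, true), true), (some (1, false), false), (some (0, true), true), (some (0, false), true), (some (0, true), false)]
    | 4, true, 1, true => [(some (2, false), false), (some (1, true), true), (some (1, false), true), (some (1, true), false), (some (1, true), true)]
    | 4, true, 2, false => [(some (2, false), false), (some (1, true), true), (some (1, false), true), (some (1, true), false), (some (2, false), true), (some (1, true), true), (some (1, false), false), (some (1, true), false), (some (2, false), true)]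
    | 4, true, 2, true => [(some (2, true), true), (some (1, true), true), (some (1, false), false), (some (1, true), false), (some (2, false), true)]
    | 4, false, 1, true => [(some (1, true), true), (some (1, false), false), (some (1, true), false), (some (2, false), true), (some (1, true), true)]
    | 4, false, 2, false => [(some (1, true), true), (some (1, false), false), (some (1, true), false), (some (2, false), true), (some (2, false), true), (some (2, false), false), (some (1, true), true), (some (1, false), true), (some (1, true), false)]
    | 4, false, 2, true => [(some (2, true), true), (some (2, false), false), (some (1, true), true), (some (1, false), true), (some (1, true), false)]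
    | 5, true, 2, false => [(some (2, false), true), (some (2, true), false)]
    | 5, false, 2, false => [(some (2, false), true), (some (2, true), true)]
    | 6, true, 2, true => [(some (2, true), true), (some (2, false), true)]
    | 6, false, 2, true => [(some (2, true), true), (some (2, false), false)]
    | _, _, _, _ => [(some p, true)]
  wt _ _ := []

/-- Table of twists. -/
def tS : Tab 2 where
  img s c p := match s.val, c, p.1.val, p.2 with
    | 0, true, 0, false => [(none, false), (some (1, true), true), (some (1, false), true), (some (1, true), false), (some (1, false), false), (some (0, true), true), (some (0, false), true), (some (0, true), false), (some (0, false), false), (some (0, false), true), (some (0, false), true), (some (0, true), true), (some (0, false), false), (some (0, true), false), (some (1, false), true), (some (1, true), true), (some (1, false), false), (some (1, true), false), (none, true)]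
    | 0, true, 0, true => [(none, false), (some (1, true), true), (some (1, false), true), (some (1, true), false), (some (1, false), false), (some (0, true), true), (some (0, false), true), (some (0, true), false), (some (0, false), false), (some (0, true), true), (some (0, false), true), (some (0, true), true), (some (0, false), false), (some (0, true), false), (some (1, false), true), (some (1, true), true), (some (1, false), false), (some (1, true), false), (none, true)]
    | 0, true, 1, false => [(none, false), (some (1, true), true), (some (1, false), true), (some (1, true), false), (some (1, false), false), (some (0, true), true), (some (0, false), true), (some (0, true), false), (some (0, false), false), (some (1, false), true), (some (0, false), true), (some (0, true), true), (some (0, false), false), (some (0, true), false), (some (1, false), true), (some (1, true), true), (some (1, false), false), (some (1, true), false), (none, true)]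
    | 0, true, 1, true => [(none, false), (some (1, true), true), (some (1, false), true), (some (1, true), false), (some (1, false), false), (some (0, true), true), (some (0, false), true), (some (0, true), false), (some (0, false), false), (some (1, true), true), (some (0, false), true), (some (0, true), true), (some (0, false), false), (some (0, true), false), (some (1, false), true), (some (1, true), true), (some (1, false), false), (some (1, true), false), (none, true)]
    | 0, false, 0, false => [(some (0, false), true), (some (0, true), true), (some (0, false), false), (some (0, true), false), (some (1, false), true), (some (1, true), true), (some (1, false), false), (some (1, true), false), (none, true), (some (0, false), true), (none, false), (some (1, true), true), (some (1, false), true), (some (1, true), false), (some (1, false), false), (some (0, true), true), (some (0, false), true), (some (0, true), false), (some (0, false), false)]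
    | 0, false, 0, true => [(some (0, false), true), (some (0, true), true), (some (0, false), false), (some (0, true), false), (some (1, false), true), (some (1, true), true), (some (1, false), false), (some (1, true), false), (none, true), (some (0, true), true), (none, false), (some (1, true), true), (some (1, false), true), (some (1, true), false), (some (1, false), false), (some (0, true), true), (some (0, false), true), (some (0, true), false), (some (0, false), false)]
    | 0, false, 1, false => [(some (0, false), true), (some (0, true), true), (some (0, false), false), (some (0, true), false), (some (1, false), true), (some (1, true), true), (some (1, false), false), (some (1, true), false), (none, true), (some (1, false), true), (none, false), (some (1, true), true), (some (1, false), true), (some (1, true), false), (some (1, false), false), (some (0, true), true), (some (0, false), true), (some (0, true), false), (some (0, false), false)]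
    | 0, false, 1, true => [(some (0, false), true), (some (0, true), true), (some (0, false), false), (some (0, true), false), (some (1, false), true), (some (1, true), true), (some (1, false), false), (some (1, true), false), (none, true), (some (1, true), true), (none, false), (some (1, true), true), (some (1, false), true), (some (1, true), false), (some (1, false), false), (some (0, true), true), (some (0, false), true), (some (0, true), false), (some (0, false), false)]
    | 1, true, 1, false => [(some (1, false), true), (some (1, true), false)]
    | 1, false, 1, false => [(some (1, false), true), (some (1, true), true)]
    | 2, true, 1, true => [(some (1, true), true), (some (1, false), true)]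
    | 2, false, 1, true => [(some (1, true), true), (some (1, false), false)]
    | 3, true, 1, true => [(none, false), (some (1, true), true), (some (1, false), true), (some (1, true), false), (some (1, true), true)]
    | 3, false, 1, true => [(some (1, true), true), (some (1, false), false), (some (1, true), false), (none, true), (some (1, true), true)]
    | 4, true, 0, true => [(some (1, false), false), (some (0, true), true), (some (0, false), true), (some (0, true), false), (some (0, true), true)]
    | 4, true, 1, false => [(some (1, false), false), (some (0, true), true), (some (0, false), true), (some (0, true), false), (some (1, false), true), (some (0, true), true), (some (0, false), false), (some (0, true), false), (some (1, false), true)]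
    | 4, true, 1, true => [(some (1, true), true), (some (0, true), true), (some (0, false), false), (some (0, true), false), (some (1, false), true)]
    | 4, false, 0, true => [(some (0, true), true), (some (0, false), false), (some (0, true), false), (some (1, false), true), (some (0, true), true)]
    | 4, false, 1, false => [(some (0, true), true), (some (0, false), false), (some (0, true), false), (some (1, false), true), (some (1, false), true), (some (1, false), false), (some (0, true), true), (some (0, false), true), (some (0, true), false)]
    | 4, false, 1, true => [(some (1, true), true), (some (1, false), false), (some (0, true), true), (some (0, false), true), (some (0, true), false)]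
    | 5, true, 0, false => [(some (0, false), true), (some (0, true), false)]
    | 5, false, 0, false => [(some (0, false), true), (some (0, true), true)]
    | 6, true, 0, true => [(some (0, true), true), (some (0, false), true)]
    | 6, false, 0, true => [(some (0, true), true), (some (0, false), false)]
    | _, _, _, _ => [(some p, true)]
  wt s c := match s.val, c with
    | 0, true => [(none, false), (some (1, true), true), (some (1, false), true), (some (1, true), false), (some (1, false), false), (some (0, true), true), (some (0, false), true), (some (0, true), false), (some (0, false), false)]
    | 0, false => [(some (0, false), true), (some (0, true), true), (some (0, false), false), (some (0, true), false), (some (1, false), true), (some (1, true), true), (some (1, false), false), (some (1, true), false), (none, true)]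
    | 3, true => [(none, false), (some (1, true), true), (some (1, false), true), (some (1, true), false)]
    | 3, false => [(some (1, true), true), (some (1, false), false), (some (1, true), false), (none, true)]
    | _, _ => []

/-- Boundary word in genus three. -/
def zN : Wd (L0 3) := [(some (0, false), true), (some (0, true), true), (some (0, false), false), (some (0, true), false), (some (1, false), true), (some (1, true), true), (some (1, false), false), (some (1, true), false), (some (2, false), true), (some (2, true), true), (some (2, false), false), (some (2, true), false), (none, true)]

/-- Boundary word in genus two. -/
def zS : Wd (L0 2) := [(some (0, false), true), (some (0, true), true), (some (0, false), false), (some (0, true), false), (some (1, false), true), (some (1, true), true), (some (1, false), false), (some (1, true), false), (none, true)]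

theorem goodN : tN.Good (up zN) [(1, true), (2, true)]
    [(1, false), (4, false), (3, false), (2, true)]
    [(5, true), (4, true), (6, true), (5, true), (1, false), (4, false), (3, false), (2, true)] := by
  decide +kernel

theorem goodS : tS.Good (up zS) [(1, false), (4, false), (5, false), (6, false), (6, false), (5, false), (4, false), (2, true)]
    [(1, true), (3, true), (5, false), (6, false), (6, false), (5, false), (4, false), (2, true)]
    [(5, true), (4, true), (1, true), (3, true), (6, false), (5, false), (4, false), (2, true)] := by
  decide +kernel

variable {g : ℕ}

theorem bdry_split {r h : ℕ} (hr : r ≤ h) : bdry g h = bdry g r * inner g r h := by
  rw [bdry, bdry, inner, ← Function.comp_def (handle g), ← List.map_map, ← List.prod_append,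
    ← List.map_append, ← List.range_add, Nat.add_sub_cancel' hr]

theorem central (hg : 3 ≤ g) {φ : MulAut (F g)} (hφ : StdTwist φ) :
    ∃ (K : Subgroup (MulAut (F g))) (a : φ ∈ K), (∀ k ∈ K, k (bdry g g) = bdry g g) ∧
      (∀ k : K, k * ⟨φ, a⟩ = ⟨φ, a⟩ * k) ∧ ⟨φ, a⟩ ∈ commutator K := by
  have p0 : 0 < g := by omega
  have p1 : 1 < g := by omega
  have p2 : 2 < g := by omega
  obtain e | ⟨h, hr, hh, e⟩ := hφ
  · refine exists_central tN le_rfl hg goodN (fun x => ?_) (⟨0, p0⟩, true) fun x => ?_
    · rw [ev_up, bdry_split le_rfl]
      simp [V, zN, bdry, List.range_succ, handle, p0, p1, p2, mul_assoc, Fin.castLE]
    · rw [e, Tab.En, lift_apply_of]
      obtain ⟨⟨i, hi⟩, c⟩ := x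
      rcases i with _ | _ | _ | i <;> cases c <;> simp [tN, V, Fin.castLE]
  · have z : V hr hh (.mk zS) = bdry g h := by
      rw [bdry_split hr]
      simp [V, zS, bdry, List.range_succ, handle, p0, p1, mul_assoc, Fin.castLE]
    refine exists_central tS hr hh goodS (fun x => (ev_up hr hh x zS).trans z) (⟨0, p0⟩, true)
      fun x => ?_
    have w : tS.wt 0 true = invRev zS := by decide
    have w' : ∀ p, tS.img 0 true p = invRev zS ++ [(some p, true)] ++ zS := by decide
    rw [e, Tab.En, lift_apply_of]
    simp only [w, w', ← mul_mk, ← inv_mk, map_mul, map_inv, z, inv_inv]
    split_ifs with a b
    · simp [V]
    · rfl
    · omega
    · rfl

/-- The automorphism of the surface group induced by an automorphism fixing the relator. -/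
def ind (K : Subgroup (MulAut (F g))) (hK : ∀ k ∈ K, k (bdry g g) = bdry g g) :
    K →* MulAut (Pi1 g) where
  toFun k := QuotientGroup.congr _ _ k.1 (by
    rw [Subgroup.map_normalClosure _ _ k.1.surjective]
    simp [hK k k.2])
  map_one' := by
    ext x
    induction x using QuotientGroup.induction_on
    rfl
  map_mul' a b := by
    ext x
    induction x using QuotientGroup.induction_on
    rfl

theorem twist_growth (hg : 3 ≤ g) {T : Mod g} (hT : IsTwist T) {H : Type*} [NormedAddCommGroup H]
    [InnerProductSpace ℝ H] [CompleteSpace H] (ρ : Mod g →* (H ≃ᵢ H)) (v : H) :
    Tendsto (fun n : ℕ => dist (ρ (T ^ n) v) v ^ 2 / n) atTop (𝓝 0) := by
  obtain ⟨φ, c, hφ, ⟨-, ψ, hψ, hc⟩, hT⟩ := hT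
  obtain ⟨d, rfl⟩ := isConj_iff.1 hT
  obtain ⟨K, a, hK, h1, h2⟩ := central hg hφ
  let f : K →* Mod g := ((cls _).comp (ind K hK)).codRestrict (modSub g) fun k =>
    ⟨k, hK k k.2, ind K hK k, fun _ => rfl, rfl⟩
  have e : f ⟨φ, a⟩ = c := Subtype.ext (hc.trans (congrArg _ (MulEquiv.ext fun x => by
    induction x using QuotientGroup.induction_on
    exact hψ _))).symm
  refine (isom_growth (ρ.comp f) h1 h2 (ρ d⁻¹ v)).congr fun n => ?_
  rw [MonoidHom.comp_apply, map_pow f, e, conj_pow, map_mul, map_mul, ← (ρ d).dist_eq]
  simp

end Pool.Agent.Lib.MP_c86c76_al
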