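import Pool.Agent.Lib.MP_c86c76_al.Defs
import Pool.Agent.Lib.MP_c86c76_al.Central

/-!
Explicit Dehn twists and the lantern relation.
-/

set_option autoImplicit false

open FreeGroup hiding map_mul map_one map_inv

namespace Pool.Agent.Lib.MP_c86c76_al

/-- Explicit generators and the boundary of the inner block. -/
abbrev L0 (r : ℕ) : Type := Option (Fin r × Bool)

/-- Together with a generic inner and a generic outer generator. -/
abbrev L1 (r : ℕ) : Type := L0 r ⊕ Bool

/-- Words. -/
abbrev Wd (A : Type) : Type := List (A × Bool)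

/-- A table of automorphisms. -/
structure Tab (r : ℕ) where
  img : Fin 7 → Bool → Fin r × Bool → Wd (L0 r)
  wt : Fin 7 → Bool → Wd (L0 r)

variable {r : ℕ} (t : Tab r)

/-- Inclusion of words. -/
def up (w : Wd (L0 r)) : Wd (L1 r) := w.map fun p => (Sum.inl p.1, p.2)

/-- Images of the letters. -/
def Tab.tab (s : Fin 7 × Bool) : L1 r → Wd (L1 r)
  | .inl (some p) => up (t.img s.1 s.2 p)
  | .inl none => up (t.wt s.1 s.2) ++ [(.inl none, true)] ++ invRev (up (t.wt s.1 s.2))
  | .inr false => up (t.wt s.1 s.2) ++ [(.inr false, true)] ++ invRev (up (t.wt s.1 s.2))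
  | .inr true => [(.inr true, true)]

/-- Substitution followed by reduction. -/
def Tab.sub (s : Fin 7 × Bool) (w : Wd (L1 r)) : Wd (L1 r) :=
  reduce (w.flatMap fun p => if p.2 then t.tab s p.1 else invRev (t.tab s p.1))

/-- Action of a word in the symbols. -/
def Tab.run (L : Wd (Fin 7)) (w : Wd (L1 r)) : Wd (L1 r) := L.foldr t.sub w

/-- Two words in the symbols act in the same way. -/
def Tab.Rel (L L' : Wd (Fin 7)) : Prop := ∀ μ, t.run L [(μ, true)] = t.run L' [(μ, true)]

instance (L L' : Wd (Fin 7)) : Decidable (t.Rel L L') := by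
  unfold Tab.Rel
  infer_instance

variable {g h : ℕ} (hr : r ≤ h) (hh : h ≤ g)

/-- The boundary of the inner block. -/
def inner (g r h : ℕ) : F g := ((List.range (h - r)).map fun i => handle g (r + i)).prod

/-- Evaluation of words without generic letters. -/
def V : FreeGroup (L0 r) →* F g :=
  lift fun p => p.elim (inner g r h) fun q => of (Fin.castLE (hr.trans hh) q.1, q.2)

/-- Evaluation of the letters. -/
def ev (x : Fin g × Bool) : FreeGroup (L1 r) →* F g :=
  lift (Sum.elim (fun p => V hr hh (of p)) fun c =>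
    if c then (if h ≤ x.1.val then of x else 1) else if r ≤ x.1.val ∧ x.1.val < h then of x else 1)

/-- The endomorphism of a symbol. -/
def Tab.En (s : Fin 7 × Bool) : F g →* F g := lift fun x =>
  if hx : x.1.val < r then V hr hh (.mk (t.img s.1 s.2 (⟨x.1, hx⟩, x.2)))
  else if x.1.val < h then V hr hh (.mk (t.wt s.1 s.2)) * of x * (V hr hh (.mk (t.wt s.1 s.2)))⁻¹
  else of x

theorem ev_up (x : Fin g × Bool) (w : Wd (L0 r)) : ev hr hh x (mk (up w)) = V hr hh (mk w) := by
  induction w with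
  | nil => exact (map_one _).trans (map_one _).symm
  | cons p w ih =>
    have : ev hr hh x (mk (up [p])) = V hr hh (mk [p]) := by
      obtain ⟨p, _ | _⟩ := p <;> simp [ev, up, V]
    rw [← List.singleton_append, up, List.map_append, ← mul_mk, ← mul_mk, map_mul, map_mul]
    exact congrArg₂ _ this ih

theorem conj_prod {f : F g →* F g} {w : F g} (l : List ℕ)
    (H : ∀ i ∈ l, ∀ (hi : i < g) (c : Bool), f (of (⟨i, hi⟩, c)) = w * of (⟨i, hi⟩, c) * w⁻¹) :
    f (l.map (handle g)).prod = w * (l.map (handle g)).prod * w⁻¹ := by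
  induction l with
  | nil => simp
  | cons i l ih =>
    rw [List.map_cons, List.prod_cons, map_mul, ih fun j hj => H j (List.mem_cons_of_mem _ hj),
      handle]
    split_ifs with hi
    · simp only [map_mul, map_inv, H i List.mem_cons_self hi]
      group
    · simp

theorem En_ev (s : Fin 7 × Bool) (x : Fin g × Bool) (μ : L1 r) :
    t.En hr hh s (ev hr hh x (of μ)) = ev hr hh x (mk (t.tab s μ)) := by
  rcases μ with (_ | p) | _ | _
  · simp only [Tab.tab, ← mul_mk, ← inv_mk, map_mul, map_inv, ev_up]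
    have : ev hr hh x (of (.inl none)) = inner g r h := by simp [ev, V]
    rw [show mk [(Sum.inl none, true)] = of (Sum.inl none : L1 r) from rfl, this, inner,
      ← Function.comp_def (handle g), ← List.map_map]
    refine conj_prod _ fun i hi hi' c => ?_
    obtain ⟨j, hj, rfl⟩ := List.mem_map.1 hi
    have := List.mem_range.1 hj
    rw [Tab.En, lift_apply_of, dif_neg (by simp), if_pos (by simp only; omega)]
  · rw [Tab.tab, ev_up]
    simp [ev, V, Tab.En]
  · simp only [Tab.tab, ← mul_mk, ← inv_mk, map_mul, map_inv, ev_up]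
    rw [show mk [(Sum.inr false, true)] = of (Sum.inr false : L1 r) from rfl]
    by_cases a : r ≤ x.1.val ∧ x.1.val < h
    · simp [ev, Tab.En, a, a.1.not_gt]
    · simp [ev, a]
  · rw [Tab.tab, show mk [(Sum.inr true, true)] = of (Sum.inr true : L1 r) from rfl]
    by_cases a : h ≤ x.1.val
    · simp [ev, Tab.En, a, a.not_gt, (hr.trans a).not_gt]
    · simp [ev, a]

theorem En_sub (s : Fin 7 × Bool) (x : Fin g × Bool) (w : Wd (L1 r)) :
    t.En hr hh s (ev hr hh x (mk w)) = ev hr hh x (mk (t.sub s w)) := by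
  rw [Tab.sub, reduce.self]
  induction w with
  | nil => simp [← one_eq_mk]
  | cons p w ih =>
    rw [List.flatMap_cons, ← List.singleton_append, ← mul_mk, ← mul_mk, map_mul, map_mul, map_mul,
      ih]
    congr 1
    obtain ⟨p, _ | _⟩ := p
    · rw [show mk [(p, false)] = (of p)⁻¹ from rfl, map_inv, map_inv, En_ev]
      simp [← inv_mk]
    · exact En_ev t hr hh s x p

/-- The endomorphism of a word in the symbols. -/
def Tab.EnL (L : Wd (Fin 7)) (y : F g) : F g := L.foldr (fun s y => t.En hr hh s y) y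

theorem EnL_run (L : Wd (Fin 7)) (x : Fin g × Bool) (w : Wd (L1 r)) :
    t.EnL hr hh L (ev hr hh x (mk w)) = ev hr hh x (mk (t.run L w)) := by
  induction L with
  | nil => rfl
  | cons s L ih => exact (congrArg (t.En hr hh s) ih).trans (En_sub t hr hh s x _)

theorem exists_letter (x : Fin g × Bool) : ∃ μ, ev hr hh x (mk [(μ, true)]) = of x := by
  by_cases a : x.1.val < r
  · exact ⟨.inl (some (⟨x.1, a⟩, x.2)), by simp [ev, V]⟩
  · by_cases b : x.1.val < h
    · exact ⟨.inr false, by simp [ev, b, not_lt.1 a]⟩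
    · exact ⟨.inr true, by simp [ev, not_lt.1 b]⟩

theorem Tab.Rel.eq {t : Tab r} {L L' : Wd (Fin 7)} (H : t.Rel L L') (x : Fin g × Bool) :
    t.EnL hr hh L (of x) = t.EnL hr hh L' (of x) := by
  obtain ⟨μ, e⟩ := exists_letter hr hh x
  rw [← e, EnL_run, EnL_run, H μ]

/-- Conjugate of the symbol `1`. -/
def cj (u : Wd (Fin 7)) : Wd (Fin 7) := u ++ [(1, true)] ++ invRev u

/-- The relations to be checked. -/
def Tab.Good (z : Wd (L1 r)) (u1 u2 u3 : Wd (Fin 7)) : Prop :=
  (∀ s c, t.Rel [(s, c), (s, !c)] []) ∧ (∀ s, t.sub (s, true) z = z) ∧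
  (∀ s, t.Rel [(s, true), (0, true)] [(0, true), (s, true)]) ∧
  (∀ p ∈ [((1 : Fin 7), (3 : Fin 7)), (1, 4), (4, 5), (5, 6), (1, 2)],
    t.Rel [(p.1, true), (p.2, true), (p.1, true)] [(p.2, true), (p.1, true), (p.2, true)]) ∧
  t.Rel (cj u1 ++ cj u2 ++ cj u3) [(0, true), (3, true), (4, true), (6, true)]

instance (z : Wd (L1 r)) (u1 u2 u3 : Wd (Fin 7)) : Decidable (t.Good z u1 u2 u3) :=
  @instDecidableAnd _ _ inferInstance (@instDecidableAnd _ _ inferInstance
    (@instDecidableAnd _ _ inferInstance (@instDecidableAnd _ _ inferInstance inferInstance)))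

theorem exists_central {z : Wd (L1 r)} {u1 u2 u3 : Wd (Fin 7)} (G : t.Good z u1 u2 u3)
    (hz : ∀ x, ev hr hh x (mk z) = bdry g h) (x0 : Fin g × Bool) {φ : MulAut (F g)}
    (hφ : ∀ x, φ (of x) = t.En hr hh (0, true) (of x)) :
    ∃ (K : Subgroup (MulAut (F g))) (a : φ ∈ K), (∀ k ∈ K, k (bdry g g) = bdry g g) ∧
      (∀ k : K, k * ⟨φ, a⟩ = ⟨φ, a⟩ * k) ∧ ⟨φ, a⟩ ∈ commutator K := by
  obtain ⟨g1, g2, g3, g4, g5⟩ := G
  let A : Fin 7 → MulAut (F g) := fun s => MonoidHom.toMulEquiv (t.En hr hh (s, true))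
    (t.En hr hh (s, false)) (ext_hom _ _ fun x => (g1 s false).eq hr hh x)
    (ext_hom _ _ fun x => (g1 s true).eq hr hh x)
  have ext : ∀ {a b : MulAut (F g)}, (∀ x, a (of x) = b (of x)) → a = b := fun {a b} H =>
    MulEquiv.toMonoidHom_injective (ext_hom _ _ H)
  obtain rfl : φ = A 0 := ext hφ
  have hA : ∀ (L : Wd (Fin 7)) (y : F g), lift A (mk L) y = t.EnL hr hh L y := fun L y => by
    induction L with
    | nil => rfl
    | cons s L ih =>
      rw [← List.singleton_append, ← mul_mk, map_mul, MulAut.mul_apply, ih]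
      obtain ⟨s, _ | _⟩ := s <;> simp [A, Tab.EnL]
  have rel : ∀ {L L' : Wd (Fin 7)}, t.Rel L L' → lift A (mk L) = lift A (mk L') := fun H =>
    ext fun x => by rw [hA, hA, H.eq]
  let K : Subgroup (MulAut (F g)) :=
    MulAction.stabilizer _ (bdry g g) ⊓ Subgroup.centralizer {A 0}
  have hK : ∀ s, A s ∈ K := fun s => by
    refine ⟨?_, Subgroup.mem_centralizer_singleton_iff.2 (by simpa using rel (g3 s))⟩
    change t.En hr hh (s, true) (bdry g g) = bdry g g
    have e : bdry g g = bdry g h * (((List.range (g - h)).map (h + ·)).map (handle g)).prod := by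
      rw [bdry, bdry, ← List.prod_append, ← List.map_append, ← List.range_add, Nat.add_sub_cancel' hh]
    rw [e, map_mul, ← hz x0, En_sub, g2, conj_prod (w := 1) _ fun i hi hi' c => by
      obtain ⟨j, hj, rfl⟩ := List.mem_map.1 hi
      rw [Tab.En, lift_apply_of, dif_neg (by simp only; omega), if_neg (by simp)]
      simp]
    simp
  refine ⟨K, hK 0, fun k hk => hk.1, fun k =>
    Subtype.ext (Subgroup.mem_centralizer_singleton_iff.1 k.2.2), ?_⟩
  let Φ : FreeGroup (Fin 7) →* K := lift fun s => ⟨A s, hK s⟩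
  have hΦ : K.subtype.comp Φ = lift A := ext_hom _ _ fun s => by simp [Φ]
  let χ := Abelianization.of.comp Φ
  have rel' : ∀ {L L' : Wd (Fin 7)}, t.Rel L L' → χ (mk L) = χ (mk L') := fun H =>
    congrArg Abelianization.of (Subtype.ext (by have := rel H; rwa [← hΦ] at this))
  have one : ∀ s, mk [(s, true)] = (of s : FreeGroup (Fin 7)) := fun s => rfl
  have br : ∀ p ∈ [((1 : Fin 7), (3 : Fin 7)), (1, 4), (4, 5), (5, 6), (1, 2)],
      χ (of p.2) = χ (of p.1) := fun p hp => by
    have := rel' (g4 p hp)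
    change χ (of p.1 * of p.2 * of p.1) = χ (of p.2 * of p.1 * of p.2) at this
    rw [map_mul, map_mul, map_mul, map_mul, mul_comm (χ (of p.2))] at this
    exact (mul_left_cancel this).symm
  have c : ∀ u, χ (mk (cj u)) = χ (of 1) := fun u => by
    rw [cj, ← mul_mk, ← mul_mk, ← inv_mk, map_mul, map_mul, map_inv, one, mul_inv_cancel_comm]
  have := rel' g5
  rw [← mul_mk, ← mul_mk, map_mul, map_mul, c, c, c] at this
  change _ = χ (of 0 * of 3 * of 4 * of 6) at this
  rw [map_mul, map_mul, map_mul, br (5, 6) (by simp), br (4, 5) (by simp), br (1, 4) (by simp),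
    br (1, 3) (by simp), mul_left_inj, mul_left_inj, right_eq_mul] at this
  rw [← Abelianization.ker_of, MonoidHom.mem_ker, ← this]
  simp [χ, Φ]

end Pool.Agent.Lib.MP_c86c76_al
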